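import Mathlib

set_option autoImplicit false
open MeasureTheory ProbabilityTheory

namespace Pool.Agent.Results.MP_218893_pr.SixteenAtoms

open scoped ENNReal

/-- Integer weights (total 150) of the counterexample law; the first one is the weight at `0`. -/
def wt : Fin 16 → ℕ := ![123, 1, 2, 2, 2, 3, 2, 2, 3, 2, 2, 2, 1, 1, 1, 1]

/-- Atoms of the counterexample law. -/
def pt : Fin 16 → ℤ :=
  ![0, 1, -2, 4, 8, -16, 32, 64, -128, 256, 512, -1024, 2048, 4096, -8192, 16384]

/-- Weighted number of triples with `a x + b y + c z = k`. -/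
def cnt (a b c k : ℤ) : ℕ :=
  ∑ i, ∑ j, ∑ l, if a * pt i + b * pt j + c * pt l = k then wt i * wt j * wt l else 0

theorem cnt_a : cnt 1 2 4 0 = 1874520 := by decide +kernel

theorem cnt_w : ∀ a ∈ ({1, -1} : Finset ℤ), ∀ b ∈ ({1, -1} : Finset ℤ),
    ∀ c ∈ ({1, -1} : Finset ℤ), cnt a b c 0 ≤ 1874519 := by decide +kernel

theorem cnt_all : (∑ i, ∑ j, ∑ l, wt i * wt j * wt l) = 3375000 := by decide +kernel

/-- For `k ≠ 0` the triple `(0, 0, 0)` of weight `123 ^ 3` is not counted. -/
theorem cnt_ne (a b c k : ℤ) (hk : k ≠ 0) : cnt a b c k ≤ 1874519 := by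
  have h1 : cnt a b c k + 1860867 ≤ ∑ i, ∑ j, ∑ l, wt i * wt j * wt l := by
    have h2 : (1860867 : ℕ) = ∑ i, ∑ j, ∑ l,
        if (i = 0 ∧ j = 0 ∧ l = 0) then wt i * wt j * wt l else 0 := by decide +kernel
    rw [h2]
    unfold cnt
    simp only [← Finset.sum_add_distrib]
    refine Finset.sum_le_sum fun i _ => Finset.sum_le_sum fun j _ => Finset.sum_le_sum fun l _ => ?_
    by_cases h : i = 0 ∧ j = 0 ∧ l = 0
    · obtain ⟨rfl, rfl, rfl⟩ := h
      have : ¬ (a * pt 0 + b * pt 0 + c * pt 0 = k) := by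
        have h0 : pt 0 = 0 := rfl
        rw [h0]
        simpa using hk.symm
      simp [this]
    · rw [if_neg h]
      split_ifs <;> simp
  rw [cnt_all] at h1
  omega

theorem sum_wt : (∑ i, ((wt i : ℕ) : ℝ≥0∞) / 150) = 1 := by
  simp only [div_eq_mul_inv]
  rw [← Finset.sum_mul, ← Nat.cast_sum]
  have : (∑ i, wt i) = 150 := by decide
  rw [this]
  norm_num
  exact ENNReal.mul_inv_cancel (by norm_num) (by norm_num)

/-- The law on indices. -/
noncomputable def p : PMF (Fin 16) := PMF.ofFintype (fun i => (wt i : ℝ≥0∞) / 150) sum_wt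


/-- The point `(z, 0, …, 0)` of `ℤ ^ d`. -/
def emb (d : ℕ) (z : ℤ) : Fin d → ℤ := fun i => if (i : ℕ) = 0 then z else 0

/-- The law on `ℤ ^ d` with mass `wt j / 150` at `(pt j, 0, …, 0)`, `j < 16`. -/
noncomputable def law (d : ℕ) : Measure (Fin d → ℤ) :=
  ∑ j : Fin 16, ((wt j : ℝ≥0∞) / 150) • Measure.dirac (emb d (pt j))

theorem law_eq (d : ℕ) : law d = p.toMeasure.map (fun j => emb d (pt j)) := by
  ext s _
  rw [Measure.map_apply (measurable_of_countable _) s.to_countable.measurableSet,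
    PMF.toMeasure_apply_fintype]
  unfold law
  rw [Measure.finsetSum_apply]
  refine Finset.sum_congr rfl fun j _ => ?_
  rw [Measure.smul_apply, Measure.dirac_apply' _ s.to_countable.measurableSet]
  by_cases h : emb d (pt j) ∈ s
  · have h' : j ∈ (fun j => emb d (pt j)) ⁻¹' s := h
    rw [Set.indicator_of_mem h, Set.indicator_of_mem h']
    simp [p]
  · have h' : j ∉ (fun j => emb d (pt j)) ⁻¹' s := h
    rw [Set.indicator_of_notMem h, Set.indicator_of_notMem h']
    simp

instance (d : ℕ) : IsProbabilityMeasure (law d) := by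
  rw [law_eq]
  exact Measure.isProbabilityMeasure_map (measurable_of_countable _).aemeasurable

theorem pi_law (d : ℕ) : Measure.pi (fun _ : Fin 3 => law d) =
    (Measure.pi (fun _ : Fin 3 => p.toMeasure)).map (fun x i => emb d (pt (x i))) := by
  have : ∀ i : Fin 3, SigmaFinite ((fun _ : Fin 3 => p.toMeasure) i |>.map
      ((fun _ : Fin 3 => (fun (i : Fin 16) => emb d (pt i))) i)) := by
    intro i
    have h : IsProbabilityMeasure (p.toMeasure.map (fun j => emb d (pt j))) :=
      Measure.isProbabilityMeasure_map (measurable_of_countable _).aemeasurable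
    exact (inferInstance : SigmaFinite (p.toMeasure.map (fun j => emb d (pt j))))
  simp only [law_eq]
  exact (Measure.pi_map_pi (μ := fun _ : Fin 3 => p.toMeasure)
    (f := fun _ : Fin 3 => (fun (i : Fin 16) => emb d (pt i)))
    (fun i => (measurable_of_countable _).aemeasurable)).symm

/-- Triples of indices as functions on `Fin 3`. -/
def e3 : (Fin 16 × Fin 16 × Fin 16) ≃ (Fin 3 → Fin 16) where
  toFun q := ![q.1, q.2.1, q.2.2]
  invFun x := (x 0, x 1, x 2)
  left_inv q := rfl
  right_inv x := by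
    ext i
    fin_cases i <;> rfl

theorem prob (a b c k : ℤ) :
    Measure.pi (fun _ : Fin 3 => p.toMeasure)
      {x : Fin 3 → Fin 16 | a * pt (x 0) + b * pt (x 1) + c * pt (x 2) = k}
      = (cnt a b c k : ℝ≥0∞) * (150⁻¹) ^ 3 := by
  classical
  have h1 : {x : Fin 3 → Fin 16 | a * pt (x 0) + b * pt (x 1) + c * pt (x 2) = k} =
      ((Finset.univ.filter (fun x : Fin 3 → Fin 16 =>
        a * pt (x 0) + b * pt (x 1) + c * pt (x 2) = k) : Finset (Fin 3 → Fin 16)) :
        Set (Fin 3 → Fin 16)) := by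
    ext x; simp
  rw [h1, ← sum_measure_singleton]
  have h2 : ∀ x : Fin 3 → Fin 16, Measure.pi (fun _ : Fin 3 => p.toMeasure) {x} =
      ((wt (x 0) * wt (x 1) * wt (x 2) : ℕ) : ℝ≥0∞) * (150⁻¹) ^ 3 := by
    intro x
    rw [Measure.pi_singleton, Fin.prod_univ_three]
    simp only [PMF.toMeasure_apply_singleton _ _ (measurableSet_singleton _)]
    simp only [p, PMF.ofFintype_apply]
    push_cast
    simp only [div_eq_mul_inv]
    ring
  have h3 : (∑ x ∈ Finset.univ.filter (fun x : Fin 3 → Fin 16 =>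
      a * pt (x 0) + b * pt (x 1) + c * pt (x 2) = k), wt (x 0) * wt (x 1) * wt (x 2))
      = cnt a b c k := by
    rw [Finset.sum_filter, ← e3.sum_comp]
    simp only [Fintype.sum_prod_type]
    unfold cnt
    refine Finset.sum_congr rfl fun i _ => Finset.sum_congr rfl fun j _ =>
      Finset.sum_congr rfl fun l _ => ?_
    have e0 : e3 (i, j, l) 0 = i := rfl
    have e1 : e3 (i, j, l) 1 = j := rfl
    have e2 : e3 (i, j, l) 2 = l := rfl
    rw [e0, e1, e2]
  simp only [h2]
  rw [← Finset.sum_mul, ← Nat.cast_sum, h3]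

theorem event_meas {d : ℕ} (S : Set (Fin 3 → Fin d → ℤ)) : MeasurableSet S :=
  S.to_countable.measurableSet


theorem left_eq (d : ℕ) (hd : 0 < d) : Measure.pi (fun _ : Fin 3 => law d)
      {x : Fin 3 → Fin d → ℤ | x 0 + 2 • x 1 + 4 • x 2 = 0} = 1874520 / 150 ^ 3 := by
  rw [pi_law, Measure.map_apply (measurable_of_countable _) (event_meas _)]
  have : (fun (x : Fin 3 → Fin 16) (i : Fin 3) => emb d (pt (x i))) ⁻¹'
      {x : Fin 3 → Fin d → ℤ | x 0 + 2 • x 1 + 4 • x 2 = 0} =
      {x : Fin 3 → Fin 16 | 1 * pt (x 0) + 2 * pt (x 1) + 4 * pt (x 2) = 0} := by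
    ext x
    simp only [Set.mem_preimage, Set.mem_ofPred_eq]
    constructor
    · intro h
      have := congrFun h ⟨0, hd⟩
      simpa [emb] using this
    · intro h
      funext i
      by_cases hi : (i : ℕ) = 0
      · simpa [emb, hi] using h
      · simp [emb, hi]
  rw [this, prob, cnt_a, ENNReal.div_eq_inv_mul, ENNReal.inv_pow, mul_comm]
  norm_num

theorem right_le (d : ℕ) (hd : 0 < d) (w : Fin 3 → ℤ) (hw : ∀ i, w i = 1 ∨ w i = -1)
    (k : Fin d → ℤ) :
    Measure.pi (fun _ : Fin 3 => law d) {x : Fin 3 → Fin d → ℤ | ∑ i, w i • x i = k}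
      ≤ 1874519 / 150 ^ 3 := by
  rw [pi_law, Measure.map_apply (measurable_of_countable _) (event_meas _)]
  have : (fun (x : Fin 3 → Fin 16) (i : Fin 3) => emb d (pt (x i))) ⁻¹'
      {x : Fin 3 → Fin d → ℤ | ∑ i, w i • x i = k} ⊆
      {x : Fin 3 → Fin 16 | w 0 * pt (x 0) + w 1 * pt (x 1) + w 2 * pt (x 2) = k ⟨0, hd⟩} := by
    intro x hx
    simp only [Set.mem_preimage, Set.mem_ofPred_eq] at hx ⊢
    have := congrFun hx ⟨0, hd⟩
    simpa [emb, Fin.sum_univ_three] using this
  refine (measure_mono this).trans ?_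
  rw [prob, ENNReal.div_eq_inv_mul, ENNReal.inv_pow, mul_comm]
  gcongr
  have hmem : ∀ i, w i ∈ ({1, -1} : Finset ℤ) := by
    intro i
    rcases hw i with h | h <;> simp [h]
  have : cnt (w 0) (w 1) (w 2) (k ⟨0, hd⟩) ≤ 1874519 := by
    by_cases hk : k ⟨0, hd⟩ = 0
    · rw [hk]; exact cnt_w _ (hmem 0) _ (hmem 1) _ (hmem 2)
    · exact cnt_ne _ _ _ _ hk
  exact_mod_cast this

/-- **No choice of signs is optimal**: for `n = 3` and every dimension `d ≥ 1`. -/
theorem result (d : ℕ) (hd : 0 < d) {Ω : Type*} [MeasurableSpace Ω] (P : Measure Ω)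
    [IsProbabilityMeasure P] (X : Fin 3 → Ω → Fin d → ℤ) (hX : ∀ i, Measurable (X i))
    (hind : iIndepFun X P) (hlaw : ∀ i, P.map (X i) = law d) :
    (∀ w : Fin 3 → ℤ, (∀ i, w i = 1 ∨ w i = -1) → ∀ k : Fin d → ℤ,
      P {ω | ∑ i, w i • X i ω = k} ≤ 1874519 / 150 ^ 3) ∧
    P {ω | X 0 ω + 2 • X 1 ω + 4 • X 2 ω = 0} = 1874520 / 150 ^ 3 := by
  have hpi : P.map (fun ω i => X i ω) = Measure.pi (fun _ : Fin 3 => law d) := by
    rw [(iIndepFun_iff_map_fun_eq_pi_map (fun i => (hX i).aemeasurable)).1 hind]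
    simp only [hlaw]
  have hm : Measurable (fun ω i => X i ω) := measurable_pi_lambda _ hX
  constructor
  · intro w hw k
    have := right_le d hd w hw k
    rw [← hpi, Measure.map_apply hm (event_meas _)] at this
    exact this
  · have := left_eq d hd
    rw [← hpi, Measure.map_apply hm (event_meas _)] at this
    exact this

end Pool.Agent.Results.MP_218893_pr.SixteenAtoms
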